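import Pool.Agent.H365Orth.Final

set_option autoImplicit false

namespace Pool.Agent.Results.MP_3dd357_co.ThetaLower

open Finset

/-- feasible matrices of the semidefinite program defining the Lovász theta function. -/
def Feasible {n : ℕ} (G : SimpleGraph (Fin n)) (B : Matrix (Fin n) (Fin n) ℝ) : Prop :=
  B.PosSemidef ∧ B.trace = 1 ∧ ∀ i j, G.Adj i j → B i j = 0

/-- the Lovász theta function. -/
noncomputable def theta {n : ℕ} (G : SimpleGraph (Fin n)) : ℝ :=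
  sSup {s : ℝ | ∃ B : Matrix (Fin n) (Fin n) ℝ, Feasible G B ∧ s = ∑ i, ∑ j, B i j}

/-- `M k n`: the maximum of `theta G` over graphs on `n` vertices with independence number
less than `k`. -/
noncomputable def M (k n : ℕ) : ℝ :=
  sSup {t : ℝ | ∃ G : SimpleGraph (Fin n),
    (∀ s : Finset (Fin n), G.IsIndepSet (s : Set (Fin n)) → s.card < k) ∧ t = theta G}

theorem sum_le {n : ℕ} (G : SimpleGraph (Fin n)) (B : Matrix (Fin n) (Fin n) ℝ) (h : Feasible G B) :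
    ∑ i, ∑ j, B i j ≤ n := by
  obtain ⟨v, hv⟩ := H365Orth.exists_gram B h.1
  have h1 : ∑ i, ∑ j, B i j = ‖∑ i, v i‖ ^ 2 := by
    rw [← real_inner_self_eq_norm_sq, sum_inner]
    simp_rw [inner_sum, hv]
  have h2 : ∑ i, ‖v i‖ ^ 2 = 1 := by
    rw [← h.2.1, Matrix.trace]
    refine sum_congr rfl (fun i _ => ?_)
    rw [Matrix.diag_apply, ← hv i i, real_inner_self_eq_norm_sq]
  rw [h1]
  calc ‖∑ i, v i‖ ^ 2 ≤ (∑ i, ‖v i‖) ^ 2 := pow_le_pow_left₀ (norm_nonneg _) (norm_sum_le _ _) 2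
    _ ≤ (univ : Finset (Fin n)).card * ∑ i, ‖v i‖ ^ 2 := sq_sum_le_card_mul_sum_sq
    _ = n := by rw [h2, card_univ, Fintype.card_fin, mul_one]

theorem theta_le {n : ℕ} (G : SimpleGraph (Fin n)) : theta G ≤ n := by
  refine Real.sSup_le ?_ (Nat.cast_nonneg n)
  rintro s ⟨B, hB, rfl⟩
  exact sum_le G B hB

theorem le_theta {n : ℕ} (G : SimpleGraph (Fin n)) (B : Matrix (Fin n) (Fin n) ℝ) (h : Feasible G B) :
    ∑ i, ∑ j, B i j ≤ theta G := by
  refine le_csSup ⟨n, ?_⟩ ⟨B, h, rfl⟩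
  rintro s ⟨B', hB', rfl⟩
  exact sum_le G B' hB'

/-- For every fixed `k ≥ 3`, `M_k(n) ≥ c_k n^{1/2 - 1/(2(k-1))}` for all large `n`. -/
theorem result :
    ∀ k : ℕ, 3 ≤ k → ∃ c : ℝ, 0 < c ∧ ∃ N : ℕ, ∀ n : ℕ, N ≤ n →
      c * (n : ℝ) ^ (1 / 2 - 1 / (2 * ((k : ℝ) - 1))) ≤ M k n := by
  intro k hk
  obtain ⟨m, rfl⟩ := Nat.exists_eq_add_of_le hk
  obtain ⟨c, hc, N, hN⟩ := H365Orth.main_bound m
  refine ⟨c ^ 2, by positivity, N + 1, fun n hn => ?_⟩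
  obtain ⟨v, hv1, hv2, hv3⟩ := hN n (by omega)
  have hn0 : (0 : ℝ) < n := by
    have : 0 < n := by omega
    exact_mod_cast this
  set G : SimpleGraph (Fin n) :=
    { Adj := fun i j => i ≠ j ∧ inner ℝ (v i) (v j) = 0
      symm := ⟨fun i j h => ⟨h.1.symm, by rw [real_inner_comm]; exact h.2⟩⟩
      loopless := ⟨fun i h => h.1 rfl⟩ } with hG
  have hα : ∀ s : Finset (Fin n), G.IsIndepSet (s : Set (Fin n)) → s.card < 3 + m := by
    intro s hs
    by_contra hcon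
    push Not at hcon
    obtain ⟨K, hKs, hK⟩ := Finset.exists_subset_card_eq (s := s) (n := m + 3) (by omega)
    obtain ⟨i, hi, j, hj, hij, h0⟩ := hv2 K hK
    exact hs (hKs hi) (hKs hj) hij ⟨hij, h0⟩
  have hfeas : Feasible G (Matrix.of fun i j => (1 / (n : ℝ)) * inner ℝ (v i) (v j)) := by
    refine ⟨?_, ?_, ?_⟩
    · have h1 : (Matrix.of fun i j => (1 / (n : ℝ)) * inner ℝ (v i) (v j)) = (1 / (n : ℝ)) • Matrix.gram ℝ v := by
        ext i j
        simp [Matrix.gram_apply]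
      rw [h1]
      exact (Matrix.posSemidef_gram ℝ v).smul (by positivity)
    · rw [Matrix.trace]
      have h1 : ∀ i, (Matrix.of fun i j => (1 / (n : ℝ)) * inner ℝ (v i) (v j)).diag i = 1 / (n : ℝ) := by
        intro i
        rw [Matrix.diag_apply, Matrix.of_apply, real_inner_self_eq_norm_sq, hv1]; ring
      rw [sum_congr rfl (fun i _ => h1 i), sum_const, card_univ, Fintype.card_fin, nsmul_eq_mul]
      field_simp
    · intro i j hij
      rw [Matrix.of_apply, hij.2, mul_zero]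
  have h1 := le_theta G _ hfeas
  have h2 : ∑ i, ∑ j, (Matrix.of fun i j => (1 / (n : ℝ)) * inner ℝ (v i) (v j)) i j = (1 / (n : ℝ)) * ‖∑ i, v i‖ ^ 2 := by
    rw [← real_inner_self_eq_norm_sq, sum_inner]
    simp_rw [inner_sum, Matrix.of_apply, mul_sum]
  rw [h2] at h1
  have h3 : theta G ≤ M (3 + m) n := by
    refine le_csSup ⟨n, ?_⟩ ⟨G, hα, rfl⟩
    rintro t ⟨G', -, rfl⟩
    exact theta_le G'
  refine le_trans ?_ (h1.trans h3)
  have hm : (0 : ℝ) < (m : ℝ) + 2 := by positivity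
  set e : ℝ := (3 * (m : ℝ) + 5) / (4 * ((m : ℝ) + 2)) with he
  have hexp : (1 / 2 - 1 / (2 * (((3 + m : ℕ) : ℝ) - 1)) : ℝ) = e + e - 1 := by
    have h4 : ((3 + m : ℕ) : ℝ) - 1 = (m : ℝ) + 2 := by push_cast; ring
    rw [h4, he]
    field_simp
    ring
  rw [hexp, Real.rpow_sub hn0, Real.rpow_add hn0, Real.rpow_one]
  have h5 : 0 ≤ c * (n : ℝ) ^ e := by positivity
  have h6 : (c * (n : ℝ) ^ e) ^ 2 ≤ ‖∑ i, v i‖ ^ 2 := pow_le_pow_left₀ h5 hv3 2
  calc c ^ 2 * ((n : ℝ) ^ e * (n : ℝ) ^ e / n) = (1 / (n : ℝ)) * (c * (n : ℝ) ^ e) ^ 2 := by ring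
    _ ≤ (1 / (n : ℝ)) * ‖∑ i, v i‖ ^ 2 := mul_le_mul_of_nonneg_left h6 (by positivity)

end Pool.Agent.Results.MP_3dd357_co.ThetaLower
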